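import Pool.Agent.H932BP.Bound

/-!
# MP_7debfd_pr: randomly initialized belief propagation can fail above the Kesten–Stigum bound

The definitions are in `Pool/Agent/H932BP/Defs.lean`.
-/

open Filter

namespace Pool.Agent.Results.MP_7debfd_pr.RandomInitFails

open Pool.Agent.H932BP

/-- Take `b = 0` and any `a > 2`. Then `(a - b)² > 2 (a + b)`, and for every `ε > 0` the probability
that the belief propagation estimate, from random initialization, has absolute overlap at least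
`ε` is at most `1 - c` for all large `n` and all numbers of rounds `t`, with one `c > 0`.
In particular the answer to Q1 (for all `a, b ≥ 0` with `a ≠ b`) is negative. -/
theorem result :
    (∀ a : ℝ, 2 < a → (a - 0) ^ 2 > 2 * (a + 0) ∧
      ∀ ε : ℝ, 0 < ε → ∃ c : ℝ, 0 < c ∧ ∃ N : ℕ, ∀ n : ℕ, N ≤ n → ∀ t : ℕ,
        successProb a 0 n t ε ≤ 1 - c) ∧
    ¬ (∀ a b : ℝ, 0 ≤ a → 0 ≤ b → a ≠ b → (a - b) ^ 2 > 2 * (a + b) →
      ∃ ε : ℝ, 0 < ε ∧ ∃ t : ℕ → ℕ, AchievesCorrelation a b t ε) := by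
  have h1 : ∀ a : ℝ, 2 < a → (a - 0) ^ 2 > 2 * (a + 0) ∧
      ∀ ε : ℝ, 0 < ε → ∃ c : ℝ, 0 < c ∧ ∃ N : ℕ, ∀ n : ℕ, N ≤ n → ∀ t : ℕ,
        successProb a 0 n t ε ≤ 1 - c := by
    intro a ha
    refine ⟨by nlinarith, ?_⟩
    intro ε hε
    exact main_bound a (by linarith) ε hε
  refine ⟨h1, ?_⟩
  intro h
  obtain ⟨hKS, h2⟩ := h1 3 (by norm_num)
  obtain ⟨ε, hε, t, ht⟩ := h 3 0 (by norm_num) le_rfl (by norm_num) hKS
  obtain ⟨c, hc, N, hN⟩ := h2 ε hε
  have h3 : ∀ᶠ n : ℕ in atTop, successProb 3 0 n (t n) ε ≤ 1 - c :=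
    eventually_atTop.2 ⟨N, fun n hn => hN n hn (t n)⟩
  have h4 := le_of_tendsto ht h3
  linarith

end Pool.Agent.Results.MP_7debfd_pr.RandomInitFails
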